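import Pool.Agent.helper66.LIN.Spec

/-!
# Project lin (MP_60c1a7_co), module INI: the initial configuration
-/

set_option autoImplicit false

namespace LSH.Lin

theorem INI (hMAN : MAN_stmt) (hGTF : GTF_stmt) : INI_stmt := by
  classical
  intro t P hP hc
  have hne : P.Nonempty := by
    rw [← Finset.card_pos]
    omega
  obtain ⟨p, hp, hmin⟩ := P.exists_min_image (fun x => x.1) hne
  have hlt : ∀ q ∈ P, q ≠ p → p.1 < q.1 := by
    intro q hq hqp
    exact lt_of_le_of_ne (hmin q hq) (hP p hp q hq (Ne.symm hqp)).1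
  have hmm : 1 ≤ t.mm := (hGTF.2.2.2.2.2.2.2 t).1
  have hcfg : Cfg P {(p, t)} (fun _ => p.1) p.1 := by
    refine ⟨hP, ?_, ?_, ?_, ?_, ?_, ?_, ?_, ?_⟩
    · simp
    · intro i hi
      rw [Multiset.mem_singleton] at hi
      rw [hi]
      exact hp
    · intro i hi
      rw [Multiset.mem_singleton] at hi
      rw [hi]
    · intro i hi y _
      rw [Multiset.mem_singleton] at hi
      rw [hi]
    · intro y y' _
      rfl
    · intro y
      exact le_refl _
    · intro i hi up
      rw [Multiset.mem_singleton] at hi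
      have h0 : avs P {(p, t)} (fun _ => p.1) i.1 up p.1 = ∅ := by
        unfold avs
        rw [Finset.filter_eq_empty_iff]
        rintro q - ⟨h1, h2, -⟩
        exact absurd h1 (not_lt.2 h2)
      rw [h0, Finset.card_empty, hi]
      exact hmm
    · have h1 : avl P (fun _ => p.1) = P.erase p := by
        unfold avl
        ext q
        rw [Finset.mem_filter, Finset.mem_erase]
        constructor
        · rintro ⟨h2, h3⟩
          refine ⟨?_, h2⟩
          rintro rfl
          exact lt_irrefl _ h3
        · rintro ⟨h2, h3⟩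
          exact ⟨h3, hlt q h3 h2⟩
      rw [h1, Finset.card_erase_of_mem hp, Multiset.map_singleton, Multiset.sum_singleton]
      show t.wt ≤ P.card - 1
      omega
  obtain ⟨D, hD⟩ := hMAN _ P {(p, t)} (fun _ => p.1) p.1 (le_refl _) hcfg
  have hmem : ((p, t) : Pt × BT) ∈ ({(p, t)} : Multiset (Pt × BT)) := Multiset.mem_singleton_self _
  have hpts := hD.pts (p, t) hmem
  have hnd : (p ::ₘ (D p).pts).Nodup := by
    rw [Multiset.nodup_cons]
    refine ⟨?_, hD.nodup (p, t) hmem⟩
    intro h
    exact lt_irrefl _ (hpts p h).2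
  refine ⟨(p ::ₘ (D p).pts).toFinset, ?_, .un p true (D p), ?_, ?_, ?_⟩
  · intro q hq
    rw [Multiset.mem_toFinset, Multiset.mem_cons] at hq
    rcases hq with rfl | hq
    · exact hp
    · exact (hpts q hq).1
  · have h := hD.shape (p, t) hmem
    show BT.un (D p).shape = BT.un t
    rw [h]
  · rw [Multiset.toFinset_val, Multiset.dedup_eq_self.2 hnd]
    rfl
  · exact hD.nc (p, t) hmem

end LSH.Lin
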